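import Pool.Agent.Lib.MP_259ac5_co.Core

namespace Pool.Agent.Results.MP_259ac5_co.ThreePoints

open Pool.Agent.Lib.MP_259ac5_co

/-- the three X-ray sources of the model configuration -/
def p0 : Fin 3 → ℤ × ℤ := ![(0, 1), (0, 0), (1, 0)]

/-- the positive vertices of the model hexagon -/
def vp0 : Fin 3 → ℤ × ℤ := ![(8, 7), (18, 15), (45, 40)]

/-- the negative vertices of the model hexagon -/
def vm0 : Fin 3 → ℤ × ℤ := ![(12, 10), (120, 105), (9, 8)]

/-- the affine map sending `(1,0), (0,1), (0,0)` to `a, b, c` -/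
def T (a b c z : ℤ × ℤ) : ℤ × ℤ :=
  (c.1 + z.1 * (a.1 - c.1) + z.2 * (b.1 - c.1), c.2 + z.1 * (a.2 - c.2) + z.2 * (b.2 - c.2))

theorem cr_T (a b c x y z w : ℤ × ℤ) :
    cr (T a b c x - T a b c y) (T a b c z - T a b c w) = cr (a - c) (b - c) * cr (x - y) (z - w) := by
  simp only [cr, T, Prod.fst_sub, Prod.snd_sub]
  ring

theorem base_col : ∀ k a : Fin 3, cr (vp0 a - p0 k) (vm0 (k - a) - p0 k) = 0 := by decide +kernel

theorem base_ext₁ : ∀ a j : Fin 3, (j ≠ a → 0 < cr (vm0 a - vm0 (a - 1)) (vp0 j - vp0 a)) ∧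
    0 < cr (vm0 a - vm0 (a - 1)) (vm0 j - vp0 a) := by decide +kernel

theorem base_ext₂ : ∀ a j : Fin 3, 0 < cr (vp0 (a + 1) - vp0 a) (vp0 j - vm0 a) ∧
    (j ≠ a → 0 < cr (vp0 (a + 1) - vp0 a) (vm0 j - vm0 a)) := by decide +kernel

theorem base_side : ∀ k l : Fin 3, k ≠ l →
    (∀ n, 0 < cr (p0 l - p0 k) (vp0 n - p0 k) ∧ 0 < cr (p0 l - p0 k) (vm0 n - p0 k)) ∨
    (∀ n, 0 < cr (p0 k - p0 l) (vp0 n - p0 l) ∧ 0 < cr (p0 k - p0 l) (vm0 n - p0 l)) := by
  decide +kernel

theorem base_side' : ∀ k l : Fin 3, k ≠ l →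
    (∀ n, cr (p0 l - p0 k) (vp0 n - p0 k) < 0 ∧ cr (p0 l - p0 k) (vm0 n - p0 k) < 0) ∨
    (∀ n, cr (p0 k - p0 l) (vp0 n - p0 l) < 0 ∧ cr (p0 k - p0 l) (vm0 n - p0 l) < 0) := by
  decide +kernel

theorem image_univ (f : Fin 3 → ℤ × ℤ) : Finset.univ.image f = {f 0, f 1, f 2} := by
  ext z
  simp only [Finset.mem_image, Finset.mem_univ, true_and, Fin.exists_fin_succ, Finset.mem_insert,
    Finset.mem_singleton, eq_comm (a := z)]
  simp

theorem main (a b c : ℤ × ℤ) (hD : cr (a - c) (b - c) ≠ 0) :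
    ¬ Determines ({a, b, c} : Finset (ℤ × ℤ)) := by
  have hP : ({a, b, c} : Finset (ℤ × ℤ)) ⊆ Finset.univ.image (fun k => T a b c (p0 k)) := by
    have h0 : T a b c (p0 0) = b := by ext <;> simp [T, p0]
    have h1 : T a b c (p0 1) = c := by ext <;> simp [T, p0]
    have h2 : T a b c (p0 2) = a := by ext <;> simp [T, p0]
    intro z hz
    simp only [Finset.mem_insert, Finset.mem_singleton] at hz
    rw [Finset.mem_image]
    rcases hz with rfl | rfl | rfl
    · exact ⟨2, Finset.mem_univ _, h2⟩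
    · exact ⟨0, Finset.mem_univ _, h0⟩
    · exact ⟨1, Finset.mem_univ _, h1⟩
  rcases lt_or_gt_of_ne hD with hneg | hpos
  · refine switch (m := 3) (by norm_num) (fun k => T a b c (p0 k)) (fun k => T a b c (vp0 k))
      (fun k => T a b c (vm0 k)) ?_ ?_ ?_ ?_ _ hP
    · intro k i
      rw [cr_T, base_col, mul_zero]
    · intro i
      refine ⟨T a b c (vm0 (i - 1)) - T a b c (vm0 i), ?_, ?_⟩
      · intro j hj
        have := (base_ext₁ i j).1 hj
        have h2 : cr (vm0 (i - 1) - vm0 i) (vp0 j - vp0 i) < 0 := by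
          simp only [cr, Prod.fst_sub, Prod.snd_sub] at this ⊢
          linarith
        rw [cr_T]
        exact mul_pos_of_neg_of_neg hneg h2
      · intro j
        have := (base_ext₁ i j).2
        have h2 : cr (vm0 (i - 1) - vm0 i) (vm0 j - vp0 i) < 0 := by
          simp only [cr, Prod.fst_sub, Prod.snd_sub] at this ⊢
          linarith
        rw [cr_T]
        exact mul_pos_of_neg_of_neg hneg h2
    · intro i
      refine ⟨T a b c (vp0 i) - T a b c (vp0 (i + 1)), ?_, ?_⟩
      · intro j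
        have := (base_ext₂ i j).1
        have h2 : cr (vp0 i - vp0 (i + 1)) (vp0 j - vm0 i) < 0 := by
          simp only [cr, Prod.fst_sub, Prod.snd_sub] at this ⊢
          linarith
        rw [cr_T]
        exact mul_pos_of_neg_of_neg hneg h2
      · intro j hj
        have := (base_ext₂ i j).2 hj
        have h2 : cr (vp0 i - vp0 (i + 1)) (vm0 j - vm0 i) < 0 := by
          simp only [cr, Prod.fst_sub, Prod.snd_sub] at this ⊢
          linarith
        rw [cr_T]
        exact mul_pos_of_neg_of_neg hneg h2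
    · intro k l hkl
      rcases base_side' k l hkl with h | h
      · left
        intro n
        rw [cr_T, cr_T]
        exact ⟨mul_pos_of_neg_of_neg hneg (h n).1, mul_pos_of_neg_of_neg hneg (h n).2⟩
      · right
        intro n
        rw [cr_T, cr_T]
        exact ⟨mul_pos_of_neg_of_neg hneg (h n).1, mul_pos_of_neg_of_neg hneg (h n).2⟩
  · refine switch (m := 3) (by norm_num) (fun k => T a b c (p0 k)) (fun k => T a b c (vp0 k))
      (fun k => T a b c (vm0 k)) ?_ ?_ ?_ ?_ _ hP
    · intro k i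
      rw [cr_T, base_col, mul_zero]
    · intro i
      refine ⟨T a b c (vm0 i) - T a b c (vm0 (i - 1)), ?_, ?_⟩
      · intro j hj
        rw [cr_T]
        exact mul_pos hpos ((base_ext₁ i j).1 hj)
      · intro j
        rw [cr_T]
        exact mul_pos hpos (base_ext₁ i j).2
    · intro i
      refine ⟨T a b c (vp0 (i + 1)) - T a b c (vp0 i), ?_, ?_⟩
      · intro j
        rw [cr_T]
        exact mul_pos hpos (base_ext₂ i j).1
      · intro j hj
        rw [cr_T]
        exact mul_pos hpos ((base_ext₂ i j).2 hj)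
    · intro k l hkl
      rcases base_side k l hkl with h | h
      · left
        intro n
        rw [cr_T, cr_T]
        exact ⟨mul_pos hpos (h n).1, mul_pos hpos (h n).2⟩
      · right
        intro n
        rw [cr_T, cr_T]
        exact ⟨mul_pos hpos (h n).1, mul_pos hpos (h n).2⟩

/-- If the determinant vanishes then the three points are collinear. -/
theorem collinear_of_cr (a b c : ℤ × ℤ) (hac : a ≠ c) (h : cr (a - c) (b - c) = 0) :
    Collinear ℝ ({emb a, emb b, emb c} : Set (ℝ × ℝ)) := by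
  have hdet : ((a.1 : ℝ) - c.1) * ((b.2 : ℝ) - c.2) - ((a.2 : ℝ) - c.2) * ((b.1 : ℝ) - c.1) = 0 := by
    have := congrArg (Int.cast : ℤ → ℝ) h
    simpa [cr] using this
  rw [collinear_iff_of_mem (p₀ := emb c) (by simp)]
  refine ⟨emb a - emb c, ?_⟩
  have key : ∃ r : ℝ, emb b = r • (emb a - emb c) +ᵥ emb c := by
    by_cases h1 : a.1 = c.1
    · have h2 : a.2 ≠ c.2 := fun h2 => hac (Prod.ext h1 h2)
      have h2' : (a.2 : ℝ) - c.2 ≠ 0 := by
        intro h
        apply h2
        have : (a.2 : ℝ) = c.2 := by linarith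
        exact_mod_cast this
      have h1' : (a.1 : ℝ) = c.1 := by exact_mod_cast h1
      rw [h1'] at hdet
      have hw : (b.1 : ℝ) - c.1 = 0 := by
        have : ((a.2 : ℝ) - c.2) * ((b.1 : ℝ) - c.1) = 0 := by linarith
        rcases mul_eq_zero.1 this with h | h
        · exact absurd h h2'
        · exact h
      refine ⟨((b.2 : ℝ) - c.2) / ((a.2 : ℝ) - c.2), ?_⟩
      ext
      · simp only [emb, vadd_eq_add, Prod.fst_add, Prod.smul_fst, Prod.fst_sub, smul_eq_mul]
        rw [h1']
        linarith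
      · simp only [emb, vadd_eq_add, Prod.snd_add, Prod.smul_snd, Prod.snd_sub, smul_eq_mul]
        field_simp
        ring
    · have h1' : (a.1 : ℝ) - c.1 ≠ 0 := by
        intro h
        apply h1
        have : (a.1 : ℝ) = c.1 := by linarith
        exact_mod_cast this
      refine ⟨((b.1 : ℝ) - c.1) / ((a.1 : ℝ) - c.1), ?_⟩
      ext
      · simp only [emb, vadd_eq_add, Prod.fst_add, Prod.smul_fst, Prod.fst_sub, smul_eq_mul]
        field_simp
        ring
      · simp only [emb, vadd_eq_add, Prod.snd_add, Prod.smul_snd, Prod.snd_sub, smul_eq_mul]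
        field_simp
        linarith
  intro q hq
  simp only [Set.mem_insert_iff, Set.mem_singleton_iff] at hq
  rcases hq with rfl | rfl | rfl
  · exact ⟨1, by simp⟩
  · exact key
  · exact ⟨0, by simp⟩

/-- **Answer to Q1.** For every set `P` of three noncollinear lattice points, discrete point X-rays
at `P` do not determine convex lattice sets. -/
theorem result : ∀ P : Finset (ℤ × ℤ), P.card = 3 →
    ¬ Collinear ℝ (emb '' (P : Set (ℤ × ℤ))) → ¬ Determines P := by
  intro P hcard hcol
  obtain ⟨a, b, c, hab, hac, hbc, rfl⟩ := Finset.card_eq_three.1 hcard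
  apply main
  intro h
  apply hcol
  have := collinear_of_cr a b c hac h
  simpa [Set.image_insert_eq, Set.image_singleton] using this

end Pool.Agent.Results.MP_259ac5_co.ThreePoints
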