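import Pool.Agent.Lib.MP_259ac5_co.Core

namespace Pool.Agent.Results.MP_259ac5_co.TwelvePoints

open Pool.Agent.Lib.MP_259ac5_co

/-- The twelve X-ray sources: a projective image of the twelve rational torsion points of the
elliptic curve `y^2 + 359xy + 3394560y = x^3 + 10608x^2`. -/
def p : Fin 12 → ℤ × ℤ :=
  ![(-264938190888571200, -264938190888571200),
    (-132469095444285600, -662345477221428000),
    (0, -662345477221428000),
    (0, 0),
    (0, 662345477221428000),
    (441563651480952000, 2207818257404760000),
    (-662345477221428000, -662345477221428000),
    (-441563651480952000, 0),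
    (-397407286332856800, 132469095444285600),
    (-378483129840816000, 157701304100340000),
    (-361279351211688000, 120426450403896000),
    (-331172738610714000, 0)]

/-- One coset of the torsion subgroup, on the oval of the curve. -/
def vp : Fin 12 → ℤ × ℤ :=
  ![(-290785819267944000, 807738386855400000),
    (-313742594473308000, 1150389513068796000),
    (-411110985861576000, 1598764945017240000),
    (-529876381777142400, 1722098240775712800),
    (-520414303531122000, 1182759780752550000),
    (-455362515589731750, 683043773384597625),
    (-412403787703908000, 437397956655660000),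
    (-389614986600840000, 337666321720728000),
    (-374912534276280000, 312427111896900000),
    (-359412274461240000, 338874430206312000),
    (-337194061130908800, 421492576413636000),
    (-309094556036666400, 574032746925237600)]

/-- The opposite coset of the torsion subgroup, on the oval of the curve. -/
def vm : Fin 12 → ℤ × ℤ :=
  ![(-294375767653968000, 956721244875396000),
    (-350653487940756000, 1363652453102940000),
    (-476888743599428160, 1748592059864569920),
    (-541919026817532000, 1505330630048700000),
    (-488044035847368000, 906367495145112000),
    (-431294729353488000, 539118411691860000),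
    (-399691236254310000, 376851737039778000),
    (-382122390704670000, 318435325587225000),
    (-367969709567460000, 318907081625132000),
    (-349718411972913984, 370913467243999680),
    (-323813344419364800, 485720016629047200),
    (-297379602017784000, 675862731858600000)]

theorem base_col : ∀ k a : Fin 12, cr (vp a - p k) (vm (k - a) - p k) = 0 := by decide +kernel

theorem base_ext₁ : ∀ a j : Fin 12, (j ≠ a → 0 < cr (vm a - vm (a - 1)) (vp j - vp a)) ∧
    0 < cr (vm a - vm (a - 1)) (vm j - vp a) := by decide +kernel

theorem base_ext₂ : ∀ a j : Fin 12, 0 < cr (vp (a + 1) - vp a) (vp j - vm a) ∧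
    (j ≠ a → 0 < cr (vp (a + 1) - vp a) (vm j - vm a)) := by decide +kernel

theorem base_side : ∀ k l : Fin 12, k ≠ l →
    (∀ n, 0 < cr (p l - p k) (vp n - p k) ∧ 0 < cr (p l - p k) (vm n - p k)) ∨
    (∀ n, 0 < cr (p k - p l) (vp n - p l) ∧ 0 < cr (p k - p l) (vm n - p l)) := by
  decide +kernel

theorem p_inj : ∀ k l : Fin 12, p k = p l → k = l := by decide +kernel

/-- **Answer to Q2.** For every `k` with `7 ≤ k ≤ 12` there is a set `P` of `k` lattice points such
that discrete point X-rays at `P` do not determine convex lattice sets. -/
theorem result : ∀ k : ℕ, 7 ≤ k → k ≤ 12 →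
    ∃ P : Finset (ℤ × ℤ), P.card = k ∧ ¬ Determines P := by
  intro k _ hk
  have hcard : (Finset.univ.image p).card = 12 := by
    rw [Finset.card_image_of_injective _ (fun a b h => p_inj a b h)]
    simp
  obtain ⟨P, hP, hPk⟩ := Finset.exists_subset_card_eq (s := Finset.univ.image p) (n := k)
    (by rw [hcard]; exact hk)
  refine ⟨P, hPk, ?_⟩
  refine switch (m := 12) (by norm_num) p vp vm base_col ?_ ?_ base_side P hP
  · intro a
    exact ⟨vm a - vm (a - 1), fun j hj => (base_ext₁ a j).1 hj, fun j => (base_ext₁ a j).2⟩
  · intro a
    exact ⟨vp (a + 1) - vp a, fun j => (base_ext₂ a j).1, fun j hj => (base_ext₂ a j).2 hj⟩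

end Pool.Agent.Results.MP_259ac5_co.TwelvePoints
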